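import Pool.Agent.J6H71.MuS.StmA
import Pool.Agent.W5h33.DF.Field

/-!
`ℚ(ζ)`, `ζ` of order `p ^ N`, has only one prime above `p` (module MUX-1 of helper71).
-/

set_option autoImplicit false

namespace Pool.Agent.J6H40.MuS

open IntermediateField Module Pool.Agent.Q60.MU Pool.Agent.W5h77.MB NumberField
open Pool.Agent.J6H71.MuS Pool.Agent.H639R3

/-- `cyc p N` is a cyclotomic extension -/
theorem isCyc (p N : ℕ) (hp : p.Prime) : IsCyclotomicExtension {p ^ N} ℚ (cyc p N) := by
  have hpn : NeZero (p ^ N) := ⟨(pow_pos hp.pos N).ne'⟩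
  have hpQ : NeZero ((p ^ N : ℕ) : Qb) := ⟨by exact_mod_cast (pow_pos hp.pos N).ne'⟩
  have hne : HasEnoughRootsOfUnity Qb (p ^ N) := inferInstance
  obtain ⟨ζ, hζ⟩ := hne.prim
  have key := IntermediateField.isCyclotomicExtension_singleton_iff_eq_adjoin (p ^ N) ℚ Qb
    (cyc p N) hζ
  have hal : (cyc p N).algebra' = (DivisionRing.toRatAlgebra : Algebra ℚ (cyc p N)) :=
    Subsingleton.elim _ _
  rw [hal] at key
  refine key.mpr ?_
  unfold cyc
  apply le_antisymm
  · rw [adjoin_le_iff]
    intro z hz
    obtain ⟨i, -, rfl⟩ := hζ.eq_pow_of_pow_eq_one hz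
    exact pow_mem (mem_adjoin_simple_self ℚ ζ) i
  · rw [adjoin_le_iff]
    intro z hz
    rw [Set.mem_singleton_iff] at hz
    rw [hz]
    exact subset_adjoin ℚ _ hζ.pow_eq_one

theorem onePrime : OnePrimeT := by
  intro p hp N
  cases N with
  | zero =>
    have h : cyc p 0 = ⊥ := by
      unfold cyc
      rw [adjoin_eq_bot_iff]
      intro z hz
      have h1 : z ^ p ^ 0 = 1 := hz
      rw [pow_zero, pow_one] at h1
      rw [h1]
      exact one_mem _
    rw [h]
    exact Pool.Agent.W5h33.DF.onePrime_bot hp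
  | succ k =>
    have : Fact p.Prime := ⟨hp⟩
    have hc := isCyc p (k + 1) hp
    have hfd : FiniteDimensional ℚ (cyc p (k + 1)) :=
      IsCyclotomicExtension.finiteDimensional {p ^ (k + 1)} ℚ (cyc p (k + 1))
    have hnf : NumberField (cyc p (k + 1)) := ⟨⟩
    have hζ := hc.zeta_spec
    intro A B hA hB
    have hint : ∀ (C : ValuationSubring (cyc p (k + 1))) (a : 𝓞 (cyc p (k + 1))),
        algebraMap (𝓞 (cyc p (k + 1))) (cyc p (k + 1)) a ∈ C := by
      intro C a
      apply Pool.Agent.H639R3.integral_mem (A := ℤ) C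
      · intro n
        simpa using intCast_mem C n
      · exact RingOfIntegers.isIntegral_coe a
    have hne : ∀ C : ValuationSubring (cyc p (k + 1)), (p : cyc p (k + 1)) ∈ C.nonunits →
        C ≠ ⊤ := by
      intro C hC htop
      rw [ValuationSubring.mem_nonunits_iff_or] at hC
      rcases hC with h3 | h3
      · exact hp.ne_zero (by exact_mod_cast h3)
      · apply h3
        rw [htop]
        trivial
    have hcent : ∀ C : ValuationSubring (cyc p (k + 1)), (p : cyc p (k + 1)) ∈ C.nonunits →
        cent C (hint C) = Ideal.span {hζ.toInteger - 1} := by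
      intro C hC
      have hP : (cent C (hint C)).IsPrime := cent_isPrime C (hint C)
      have hmem : (p : 𝓞 (cyc p (k + 1))) ∈ cent C (hint C) := by
        rw [mem_cent, map_natCast]
        exact (ValuationSubring.mem_nonunits_iff C).1 hC
      have hlo : (cent C (hint C)).LiesOver (Ideal.span {(p : ℤ)}) := by
        rw [Ideal.liesOver_iff]
        refine Ideal.IsMaximal.eq_of_le (Int.ideal_span_isMaximal_of_prime p)
          Ideal.IsPrime.ne_top' ?_
        rw [Ideal.span_singleton_le_iff_mem, Ideal.mem_comap, algebraMap_int_eq, map_natCast]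
        exact hmem
      exact IsCyclotomicExtension.Rat.eq_span_zeta_sub_one_of_liesOver p k _ hζ _
    exact eq_of_cent_eq A B (hint A) (hint B) (hne A hA) (hne B hB)
      ((hcent A hA).trans (hcent B hB).symm)

end Pool.Agent.J6H40.MuS
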